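import Pool.Agent.Run7.h316.UN.Ors
import Pool.Agent.N676.OR.FD
import Pool.Agent.N676.OR.Cnt
import Pool.Agent.Results.MP_d37f77_nt.TwistedCyclicCoverings

/-!
# Finite descent on twists of cyclic coverings by sums of primes

Let `D : b y ^ n = ∏ k, G k (z, w)` be a curve over `ℚ`, where the `G k` are the homogenisations of polynomials `g k` with
integral coefficients, of degrees divisible by `n`, pairwise coprime, and let `h` be a polynomial with integral
coefficients, coprime to the `g k`, and `H` its homogenisation (`Admissible`). For an integer `a` and `m ≥ 2`,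
`m ∣ deg h`, consider the curve

  `C a : b y ^ n = ∏ k, G k (z, w)`, `a x ^ m = H (z, w)`,

a cyclic covering of degree `m` of `D`; for different `a` these coverings are twists of each other. It has the coverings
`D δ : G k (z, w) = δ k * y k ^ n` (all `k`), `a x ^ m = H (z, w)`, `∏ δ k = b t ^ n`.

`Good n b g h a`: for all `m ≥ 2`, `m ∣ deg h`,

* the coverings `D δ` of `C a` with points over all `ℚ_p` are persistent;
* if there are no persistent classes, `C a` has no rational points (and by the first part no covering `D δ` has points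
  over all `ℚ_p`: finite descent explains this);
* if `n = 2` and the zeros of `h` are one or two integers, the coverings `D δ` satisfy the Hasse principle.

The starting files treat 100% of the squarefree integers (`TwistedCyclicCoverings`, helper925), thin sequences
(`ThinSequencesOfCoverings`, helper546) and random walks. Here the twisting parameter is the value `a = λ(c)` of a linear
form at the vectors of a family. Let `c w`, `w ∈ Ω`, be a family of integral vectors and `S M ⊂ Ω` finite sets;
`Usually`: for ALL linear forms `λ` (in the given set) and ALL admissible families `(n, b, g, h)` the proportion of the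
`w ∈ S M` for which `λ(c w)` is not good tends to zero, `M → ∞`.

**Theorem.** (A) For the linear forms `λ ≠ 0` the property `Usually` is spread-robust
(`Pool.Agent.Run7.h316.UN.SpreadRobust`): all spread families have it (the proportion of the vectors in a given class
modulo `q` is at most `C q ^ (-r) + o(1)` for all `q` prime to some number), metric sequences, random orbits of Zariski
dense groups, generalised polynomials.

(B) PRIMES. For the linear forms `λ` with at least two nonzero coefficients the property `Usually` is unit-robust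
(`Pool.Agent.Run7.h316.UN.UnitRobust`): it holds for the vectors of prime numbers `≤ M`, and for all families which are
spread over the vectors of units: the proportion of the vectors in a given class modulo `q` is at most
`C φ(q) ^ (-r) + o(1)`, and almost no vectors have a coordinate which is not prime to `q`, for all `q` prime to some
number. For example for almost all pairs of prime numbers `p`, `p'` up to `M` the twist by `a = p - p'` is good.

Two coefficients are necessary: a prime of a given Frobenius class never divides a single prime number `p` exactly once,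
if `p` is not itself in this class.

Proof. `Good` follows if a prime of each of finitely many Frobenius classes divides `a` exactly once (helper925,
helper676; the deductions of the second and the third property are those of `ThinSequencesOfCoverings`). The vectors of
primes are not dominated by Haar measure: the local conditions are counted on the vectors of units
(`Pool.Agent.Run7.h316.UN.lin_count`), the set of the vectors which are not good is unit null (`UnitNull`), and families
which are spread over the vectors of units avoid unit null sets. Vectors of primes: the prime number theorem for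
arithmetic progressions (helper923). Metric sequences: `Pool.Agent.N24.KM` (helpers 24, 344, 617, 199, 764, 432, 286);
random orbits: `Pool.Agent.N24.RW` (helpers 24, 123, 195, 300, 543, 765); generalised polynomials: `Pool.Agent.N666.TM`
(helper666); `Pool.Agent.N918.EQ` (helper918).
-/

set_option autoImplicit false

namespace Pool.Agent.Results.MP_d37f77_nt.PrimeTwists

open Polynomial Pool.Agent.R925.FD
open Pool.Agent.Run7.h316.UN (SpreadRobust UnitRobust TwoNonzero robust_of_hits)
open Pool.Agent.Results.MP_d37f77_nt.TwistedCyclicCoverings (Admissible LocallySoluble)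

/-- The coverings of the curves `C a`, `m ≥ 2`, `m ∣ deg h`, with points over all the fields `ℚ_p` are persistent; if there
are no persistent classes, the curves have no rational points; if `n = 2` and the zeros of `h` are one or two integers,
the coverings with points over all the fields `ℚ_p` have rational points. -/
def Good {r : ℕ} (n : ℕ) (b : ℤ) (g : Fin r → ℤ[X]) (h : ℤ[X]) (a : ℤ) : Prop :=
  ∀ m, 2 ≤ m → m ∣ h.natDegree →
    (∀ δ : Fin r → ℚ, IsClass n b δ → LocallySoluble n m a g h δ → Persistent n g h δ) ∧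
    ((∀ δ : Fin r → ℚ, IsClass n b δ → ¬ Persistent n g h δ) → ¬ CurveHasPoint n m b a g h ℚ) ∧
    (n = 2 → ∀ α₁ α₂ : ℤ, (∀ β : AlgebraicClosure ℚ, aeval β h = 0 ↔ β = α₁ ∨ β = α₂) →
      ∀ δ : Fin r → ℚ, IsClass 2 b δ → LocallySoluble 2 m a g h δ →
        CoveringHasPoint 2 m a g h δ ℚ)

/-- For all linear forms `λ` in `L` and all admissible families `(n, b, g, h)` the proportion of the `w` in `S M` for
which `λ(c w)` is not good tends to zero, `M → ∞`. -/
def Usually {ι : Type} [Fintype ι] (L : (ι → ℤ) → Prop) (Ω : Type) (S : ℕ → Finset Ω)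
    (c : Ω → ι → ℤ) : Prop :=
  ∀ lam : ι → ℤ, L lam → ∀ (r n : ℕ) (b : ℤ) (g : Fin r → ℤ[X]) (h : ℤ[X]), Admissible n b g h →
    ∀ ε : ℝ, 0 < ε → ∃ M₀ : ℕ, ∀ M : ℕ, M₀ ≤ M →
      (({w : Ω | w ∈ S M ∧ ¬ Good n b g h (∑ i, lam i * c w i)}.ncard : ℕ) : ℝ) ≤
        ε * (S M).card

section
variable {K : Type} [Fintype K] {n : ℕ} {b : ℤ} {g : K → ℤ[X]} {h : ℤ[X]} {a : ℤ}

/-- A rational point of a covering is a point over `ℚ_p`. -/
lemma local_of_rational {m : ℕ} {δ : K → ℚ} (hC : CoveringHasPoint n m a g h δ ℚ) :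
    LocallySoluble n m a g h δ := by
  intro p hp
  obtain ⟨z, w, x, hzw, hx, hy⟩ := hC
  refine ⟨(z : ℚ_[p]), (w : ℚ_[p]), (x : ℚ_[p]), ?_, ?_, fun k => ?_⟩
  · rcases hzw with h1 | h1
    · exact Or.inl (Rat.cast_ne_zero.2 h1)
    · exact Or.inr (Rat.cast_ne_zero.2 h1)
  · have h2 := congrArg (fun q : ℚ => (q : ℚ_[p])) hx
    simp only [Rat.cast_mul, Rat.cast_pow, Rat.cast_intCast] at h2
    rw [h2]
    exact (hom_map h (Rat.castHom ℚ_[p]) z w)
  · obtain ⟨y, hyk⟩ := hy k
    refine ⟨(y : ℚ_[p]), ?_⟩
    have h2 := congrArg (fun q : ℚ => (q : ℚ_[p])) hyk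
    simp only [Rat.cast_mul, Rat.cast_pow, Rat.cast_id] at h2
    rw [← h2]
    exact (hom_map (g k) (Rat.castHom ℚ_[p]) z w).symm

lemma empty_of (hA : Admissible n b g h) {m : ℕ}
    (hno : ∀ δ : K → ℚ, IsClass n b δ → ¬ Persistent n g h δ)
    (hp : ∀ δ : K → ℚ, IsClass n b δ → LocallySoluble n m a g h δ → Persistent n g h δ) :
    ¬ CurveHasPoint n m b a g h ℚ := by
  classical
  intro hC
  obtain ⟨δ, h1, h2⟩ := exists_class n m hA.n_pos b a hA.b_ne g h hA.g_ne hA.coprime hC
  exact hno δ h1 (hp δ h1 (local_of_rational h2))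

lemma hasse_of {α₁ α₂ : ℤ} (hA : Admissible 2 b g h) {m : ℕ} (hm : 2 ≤ m)
    (hz : ∀ β : AlgebraicClosure ℚ, aeval β h = 0 ↔ β = α₁ ∨ β = α₂) {δ : K → ℚ}
    (h3 : IsClass 2 b δ) (hper : Persistent 2 g h δ) : CoveringHasPoint 2 m a g h δ ℚ := by
  -- the zeros of `h`
  have hzero : ∀ α : ℤ, aeval (α : AlgebraicClosure ℚ) h = 0 → h.eval α = 0 := by
    intro α hα
    have h6 := aeval_algebraMap_apply_eq_algebraMap_eval (A := AlgebraicClosure ℚ) α h
    rw [eq_intCast, eq_intCast, hα] at h6
    exact_mod_cast h6.symm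
  have hpt : ∀ (f : ℤ[X]) (α : ℤ), hom f (α : ℚ) 1 = ((f.eval α : ℤ) : ℚ) := by
    intro f α
    rw [hom_one]
    have h6 := eval₂_at_apply (p := f) (Int.castRingHom ℚ) α
    rw [eq_intCast, eq_intCast] at h6
    exact h6
  have hg : ∀ (k : K) (α : ℤ), h.eval α = 0 → (g k).eval α ≠ 0 := by
    intro k α hα hgα
    refine coprime_field hA.h_ne (hA.coprime_h k) (F := ℚ) (z := (α : ℚ)) (w := 1)
      (Or.inr one_ne_zero) ?_ ?_
    · rw [hpt, hα, Int.cast_zero]
    · rw [hpt, hgα, Int.cast_zero]
  have hα₁ := hzero α₁ ((hz α₁).2 (Or.inl rfl))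
  have hα₂ := hzero α₂ ((hz α₂).2 (Or.inr rfl))
  have key : ∀ α : ℤ, h.eval α = 0 → (∀ k, IsSquare (δ k * ((g k).eval α : ℤ))) →
      CoveringHasPoint 2 m a g h δ ℚ := by
    intro α hα hsq
    refine ⟨α, 1, 0, Or.inr one_ne_zero, ?_, fun k => ?_⟩
    · rw [hpt, hα, zero_pow (by omega : m ≠ 0), mul_zero, Int.cast_zero]
    · obtain ⟨r, hr⟩ := hsq k
      have h7 := h3.1 k
      refine ⟨r / δ k, ?_⟩
      rw [hpt, Rat.cast_id, div_pow, sq r, ← hr]
      field_simp
  rcases persistent_two g h α₁ α₂ (fun β hβ => (hz β).1 hβ) (fun k => hg k α₁ hα₁)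
    (fun k => hg k α₂ hα₂) δ h3.1 hper with h6 | h6
  · exact key α₁ hα₁ h6
  · exact key α₂ hα₂ h6

end

/-- **Finite descent on twists of cyclic coverings by values of linear forms at vectors of primes, spread families, metric
sequences, random orbits and generalised polynomials.** -/
theorem result :
    (∀ (ι : Type) [Fintype ι] [DecidableEq ι] [Nonempty ι],
      SpreadRobust (Usually (ι := ι) fun lam => lam ≠ 0) ∧
      UnitRobust (Usually (ι := ι) TwoNonzero)) ∧
    (Admissible 2 1 exg exh ∧ (∀ δ, IsClass 2 1 δ → ¬ Persistent 2 exg exh δ) ∧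
      ∀ (a : ℤ) (m : ℕ), m ≠ 0 → CurveHasPoint 2 m 1 a exg exh ℝ ∧
        ∀ (p : ℕ) [Fact p.Prime], CurveHasPoint 2 m 1 a exg exh ℚ_[p]) := by
  classical
  refine ⟨fun ι _ _ _ => ?_, TwistedCyclicCoverings.result.2.2⟩
  have hcp := Pool.Agent.N676.OR.countable_poly
  have key := robust_of_hits (ι := ι) (𝔇 := Σ r : ℕ, ℕ × ℤ × (Fin r → ℤ[X]) × ℤ[X])
    (fun D a => Admissible D.2.1 D.2.2.1 D.2.2.2.1 D.2.2.2.2 →
      Good D.2.1 D.2.2.1 D.2.2.2.1 D.2.2.2.2 a) (by
    rintro ⟨r, n, b, g, h⟩
    by_cases hA : Admissible n b g h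
    · obtain ⟨PP, h1, h2, h3⟩ := Pool.Agent.N676.OR.fd_main n hA.n_pos b hA.b_ne g h hA.g_ne
        hA.h_ne hA.deg hA.coprime hA.coprime_h
      refine ⟨PP, h1, h2, fun a ha _ m hm hmh => ?_⟩
      have h4 : ∀ δ : Fin r → ℚ, IsClass n b δ → LocallySoluble n m a g h δ →
          Persistent n g h δ := fun δ hδ hloc => h3 a ha m hm hmh δ hδ hloc
      refine ⟨h4, fun hno => empty_of hA hno h4, ?_⟩
      intro hn2 α₁ α₂ hz δ hδ hloc
      change n = 2 at hn2
      subst hn2
      exact hasse_of hA hm hz hδ (h4 δ hδ hloc)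
    · exact ⟨∅, Set.finite_empty, fun P hP => absurd hP (Set.notMem_empty _),
        fun a _ hA' => absurd hA' hA⟩)
  have hconv : ∀ (L : (ι → ℤ) → Prop) (Ω : Type) (S : ℕ → Finset Ω) (c : Ω → ι → ℤ),
      (∀ lam : ι → ℤ, L lam → ∀ D : Σ r : ℕ, ℕ × ℤ × (Fin r → ℤ[X]) × ℤ[X],
        Pool.Agent.Run7.h316.EQ.Rare S c {x | ¬ (Admissible D.2.1 D.2.2.1 D.2.2.2.1 D.2.2.2.2 →
          Good D.2.1 D.2.2.1 D.2.2.2.1 D.2.2.2.2 (∑ i, lam i * x i))}) → Usually L Ω S c := by
    intro L Ω S c hR lam hlam r n b g h hA ε hε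
    obtain ⟨M₀, h1⟩ := hR lam hlam ⟨r, n, b, g, h⟩ ε hε
    refine ⟨M₀, fun M hM => le_trans ?_ (h1 M hM)⟩
    refine Nat.cast_le.2 (Set.ncard_le_ncard ?_ ((S M).finite_toSet.subset fun w hw => hw.1))
    rintro w ⟨hw1, hw2⟩
    exact ⟨hw1, fun hgood => hw2 (hgood hA)⟩
  exact ⟨key.1.imp (hconv _), key.2.imp (hconv _)⟩

end Pool.Agent.Results.MP_d37f77_nt.PrimeTwists
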