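import Pool.Agent.Run7.h972.AW.Base
import Pool.Agent.N676.OR.Cnt
import Pool.Agent.Results.MP_d37f77_nt.TwistsAlongRandomWalks

/-!
# Finite descent on twists of cyclic coverings along random orbits of affine maps

Let `D : b y ^ n = ∏ k, G k (z, w)` be a curve over `ℚ` and `h` a polynomial with integral coefficients as in the
starting file `TwistedCyclicCoverings`, and consider the twists

  `C a : b y ^ n = ∏ k, G k (z, w)`, `a x ^ m = H (z, w)`    (`m ≥ 2`, `m ∣ deg h`)

of the cyclic coverings of `D` which are ramified over the zeros of `h`, and the coverings `D δ` of `C a`, through which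
every `n`-covering of `C a` factors. `Explained n b g h a`: for all `m` all the coverings `D δ` of `C a` with points
over all the fields `ℚ_p` are persistent.

The starting result `TwistsAlongRandomWalks` (whose definitions are used) is about `a = λ(c)` for the random orbit of a
vector under matrices of determinant one which generate `SL_ι(ℤ/q)`, `2 ≤ #ι`. Here the maps are affine and need not be
invertible, `#ι = 1` is allowed, and there is one set of times for all data.

Let `x ↦ A_j x + b_j`, `j ≤ m`, be a finite family of affine maps of `ℤ^ι` (`AffineWalk`) which for all `q` prime to some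
`M` are permutations of `(ℤ/q)^ι` and generate a transitive group. The determinants of the `A_j` are arbitrary nonzero
integers. For instance, for `ι` a point: any finite family of maps `x ↦ a_j x + b_j` of `ℤ`, `a_j ≠ 0`, two of which do
not commute (`Run7.h972.AW.line_walk`), such as `x ↦ 10 x + d` for the `d` in a set of at least two digits (the orbit of
`0` are the initial segments of a random decimal number with digits in this set) or `x ↦ 2 x + 1`, `x ↦ 3 x`; in general
`x ↦ A x + d` (digits in a matrix base, random walks on `ℤ^ι` for `A = 1`). For independent and uniformly distributed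
indices `w 0, w 1, …` let `c_0 = v`, `c_(t+1) = A_(w t) c_t + b_(w t)`.

**Theorem.** For almost every word `w` there is ONE set `E` of times of density zero such that for ALL vectors `v`, ALL
linear forms `λ ≠ 0`, ALL curves `D` and ALL polynomials `h`, for all but finitely many `t` outside `E` the number
`a = λ(c_t)` is explained. So if there are no persistent classes, no covering `D δ` of `C a` is locally soluble and
`C a` has no rational points (second part of the statement, for instance for
`y² = (z² + 51) (z² - 1)`, `a x ^ m = (z² + 1) (z² - 17) (z² + 17)`).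

Proof. For all data the exceptional set of the `c` is pronull (starting result): its image in `(ℤ/q)^ι` is small for
suitable `q` prime to any given number. By the ergodic theorem for walks on finite groups (`Pool.Agent.N24.RW`), applied
to the group of affine permutations of `(ℤ/q)^ι`, the orbits visit pronull sets only at times of density zero
(`Run7.h972.AW`); there are countably many conditions.
-/

set_option autoImplicit false

namespace Pool.Agent.Results.MP_d37f77_nt.RandomAffineOrbits

open Polynomial MeasureTheory Pool.Agent.R925.FD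
open Pool.Agent.N24.RW (words)
open Pool.Agent.N676.OR (DensityZero)
open Pool.Agent.Results.MP_d37f77_nt.TwistedCyclicCoverings (Admissible LocallySoluble)
open Pool.Agent.Results.MP_d37f77_nt.TwistsAlongRandomWalks (Explained)
open Run7.h972.AW

theorem result (ι : Type) [Fintype ι] [DecidableEq ι] (W : AffineWalk ι) :
    ∀ᵐ w ∂(words W.m), ∃ E : Set ℕ, DensityZero E ∧ ∀ v lam : ι → ℤ, lam ≠ 0 →
      ∀ (r n : ℕ) (b : ℤ) (g : Fin r → ℤ[X]) (h : ℤ[X]), Admissible n b g h →
        {t : ℕ | t ∉ E ∧ ¬ Explained n b g h (∑ i, lam i * aorb W v w t i)}.Finite ∧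
        ((∀ δ, IsClass n b δ → ¬ Persistent n g h δ) → {t : ℕ | t ∉ E ∧ ∃ m : ℕ, 2 ≤ m ∧
          m ∣ h.natDegree ∧ ((∃ δ : Fin r → ℚ, IsClass n b δ ∧
            LocallySoluble n m (∑ i, lam i * aorb W v w t i) g h δ) ∨
          CurveHasPoint n m b (∑ i, lam i * aorb W v w t i) g h ℚ)}.Finite) := by
  have hcp : Countable ℤ[X] := Pool.Agent.N676.OR.countable_poly
  have hs := Pool.Agent.Results.MP_d37f77_nt.TwistsAlongRandomWalks.result
  have key := one_set_lin W (κ := Σ r : ℕ, ℕ × ℤ × (Fin r → ℤ[X]) × ℤ[X])
    (fun D a => Admissible D.2.1 D.2.2.1 D.2.2.2.1 D.2.2.2.2 →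
      Explained D.2.1 D.2.2.1 D.2.2.2.1 D.2.2.2.2 a)
    (fun lam hlam D => Pool.Agent.N24.RW.Clo.mono (fun c hc => by
      have h1 : ¬ (Admissible D.2.1 D.2.2.1 D.2.2.2.1 D.2.2.2.2 →
        Explained D.2.1 D.2.2.1 D.2.2.2.1 D.2.2.2.2 _) := hc
      rw [Classical.not_imp] at h1
      exact h1) (proNull_imp (fun hA => hs.1 ι lam hlam (Fin D.1) D.2.1 D.2.2.1 D.2.2.2.1
        D.2.2.2.2 hA)))
  filter_upwards [key] with w hw
  obtain ⟨E, hE, hall⟩ := hw
  refine ⟨E, hE, fun v lam hlam r n b g h hA => ?_⟩
  have h1 : {t : ℕ | t ∉ E ∧ ¬ Explained n b g h (∑ i, lam i * aorb W v w t i)}.Finite := by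
    refine (hall v lam hlam ⟨r, n, b, g, h⟩).subset ?_
    rintro t ⟨ht, ht'⟩
    exact ⟨ht, fun hgood => ht' (hgood hA)⟩
  refine ⟨h1, fun hper => h1.subset ?_⟩
  rintro t ⟨ht, m, hm, hmh, hor⟩
  refine ⟨ht, fun hgood => ?_⟩
  obtain ⟨h2, h3⟩ := hs.2.2.1 (Fin r) n b g h hA hper _ hgood m hm hmh
  exact hor.elim h2 h3

end Pool.Agent.Results.MP_d37f77_nt.RandomAffineOrbits
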