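import Pool.Agent.Results.MP_d37f77_nt.TwistsAlongRandomWalks
import Pool.Agent.Run7.h823.WF.PN
import Pool.Agent.Run7.h823.WF.Ex

/-!
# Finite descent on twists of cyclic coverings by the members of sparse families of residues: the first `m ^ ε` terms of
# linear recurrences modulo `m`

Let `D : b y ^ n = ∏ k, G k (z, w)` be a curve over `ℚ` and `h` a polynomial with integral coefficients as in the
starting files `TwistedCyclicCoverings` and `TwistsAlongRandomWalks`, whose definitions are used, and let

  `C a : b y ^ n = ∏ k, G k (z, w)`, `a x ^ m = H (z, w)`    (`m ≥ 2`, `m ∣ deg h`)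

be the twists by ALL integers `a` (not only the squarefree ones) of the cyclic coverings of `D` which are ramified over the
zeros of `h`. Every `n`-covering of `C a` factors through one of the coverings `D δ` of `C a`.
`Explained n b g h a`: for all `m` all the coverings `D δ` of `C a` with points over all the fields `ℚ_p` are persistent.

Let `y_i`, `i ∈ s`, be a finite family of vectors of residues modulo an integer `q` with small Fourier coefficients: for all
`h ≠ 0` modulo `q` we have `|∑ e(h·y_i / q)| ≤ δ (log q) ^ (-r) |s|`, where `r` is the number of the coordinates, and let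
`a_i = ℓ(c₀ + y_i)` (least residues), for a linear form `ℓ ≠ 0` with integral coefficients and any integral vector `c₀`.

**Theorem.** For all `(n, b, g, h)`, `r`, `B` and `ε > 0` there is `δ > 0` such that for all `q ≥ 1 / δ`, ALL such
families and ALL `c₀` the following holds for all but `ε |s|` of the `i`, SIMULTANEOUSLY for ALL linear forms `ℓ ≠ 0` with
coefficients at most `B` in absolute value: the twist by `a_i` is explained. If moreover no class `δ` is
persistent then, for all `m`, none of the coverings `D δ` of `C a_i` has points over all the fields `ℚ_p` (so the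
Selmer set of `C a_i` is empty) and `C a_i` has no rational point. (An example with points over `ℝ` and all
the fields `ℚ_p` is in the starting file.)

The family can be very sparse: examples (of vectors with `r` coordinates) are

* the values `(u_1(n), …, u_r(n))`, `n < N`, of `r` linear recurrences modulo a prime `m` with linearly independent vectors
  of coefficients, as soon as `N ≥ m ^ ε` and the roots and their quotients have orders `≥ m ^ ε`;
* the vectors `(x_1 b_1 ^ n, …, x_r b_r ^ n)`, `n < N`, `N ≥ m ^ ε`, for fixed different integers `b_j ≥ 2` and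
  all `x_j ≠ 0`, modulo all but `C X ^ ε` of the primes `m ≤ X`.

In these examples only `m ^ ε` of the `m ^ r` vectors of the box occur.

From Mathlib: `ZMod.stdAddChar`: the additive character `j ↦ exp (2 π i j / q)` of the integers modulo `q`; `ZMod.val`: the
least residue.

The proof: the exceptional vectors form a pronull set (starting file `TwistsAlongRandomWalks`); families with small Fourier
coefficients rarely meet pronull sets, since they are equidistributed modulo every fixed integer
(`Pool.Agent.Run7.h823.WF.PN`); the Fourier coefficients of short recurrences are estimated by the method of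
Bourgain, Glibichuk and Konyagin (`Pool.Agent.Run7.h823.BK`).
-/

set_option autoImplicit false

namespace Pool.Agent.Results.MP_d37f77_nt.ResidueVectors

open Polynomial Pool.Agent.R925.FD
open TwistedCyclicCoverings (Admissible LocallySoluble)
open TwistsAlongRandomWalks (Explained)
open Finset (range)

/-- The Fourier coefficients of the vectors of residues `y i`, `i ∈ s`, modulo `q` at the nonzero frequencies are at most
`η` times the number of the vectors: `|∑ i ∈ s, e(h·y_i / q)| ≤ η |s|` for all vectors `h ≠ 0` modulo `q`. -/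
def Flat {τ ι : Type} [Fintype ι] (q : ℕ) [NeZero q] (η : ℝ) (s : Finset τ) (y : τ → ι → ZMod q) : Prop :=
  ∀ h : ι → ZMod q, h ≠ 0 → ‖∑ i ∈ s, (ZMod.stdAddChar (∑ j, h j * y i j) : ℂ)‖ ≤ η * s.card

/-- The integral vector `c₀ + y_i`, with the least residues `0 ≤ y_i < q`. -/
def vec {τ ι : Type} {q : ℕ} (y : τ → ι → ZMod q) (c₀ : ι → ℤ) (i : τ) (j : ι) : ℤ := c₀ j + ((y i j).val : ℕ)

/-- **Theorem.** (1) For all admissible `(n, b, g, h)`, all `r`, `B` and `ε > 0` there is `δ > 0` such that for all
`q ≥ 1 / δ`, all families of vectors of residues modulo `q` with Fourier coefficients at most `δ (log q) ^ (-r) |s|` at the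
nonzero frequencies and all integral vectors `c₀`: for all but `ε |s|` of the members `c = c₀ + y_i` and ALL linear forms
`ℓ ≠ 0` with coefficients at most `B` the twist by `a = ℓ(c)` is explained, and if no class is persistent then for all `m`
no covering `D δ` of `C a` is everywhere locally soluble and `C a` has no rational point.

(2) Examples: short linear recurrences. (3) Examples: the first powers of fixed integers, modulo all but `C X ^ ε` of the
primes `m ≤ X`. (The Fourier coefficients are even at most `m ^ (-β) N`.) -/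
theorem result :
    (∀ (K : Type) [Fintype K] (n : ℕ) (b : ℤ) (g : K → ℤ[X]) (h : ℤ[X]), Admissible n b g h →
      ∀ (r B : ℕ) (ε : ℝ), 0 < ε → ∃ δ : ℝ, 0 < δ ∧ ∀ (q : ℕ) [NeZero q], 1 / δ ≤ q →
      ∀ (τ : Type) (s : Finset τ) (y : τ → Fin r → ZMod q), Flat q (δ / Real.log q ^ r) s y → ∀ c₀ : Fin r → ℤ,
        ({i : τ | i ∈ s ∧ ¬ ∀ lam : Fin r → ℤ, lam ≠ 0 → (∀ j, |lam j| ≤ B) →
          Explained n b g h (∑ j, lam j * vec y c₀ i j) ∧
          ((∀ d, IsClass n b d → ¬ Persistent n g h d) → ∀ m : ℕ, 2 ≤ m → m ∣ h.natDegree →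
            (¬ ∃ d : K → ℚ, IsClass n b d ∧ LocallySoluble n m (∑ j, lam j * vec y c₀ i j) g h d) ∧
              ¬ CurveHasPoint n m b (∑ j, lam j * vec y c₀ i j) g h ℚ)}.ncard : ℝ) ≤ ε * s.card) ∧
    (∀ (k : ℕ) (ε : ℝ), 0 < ε → ∃ β : ℝ, 0 < β ∧ ∃ m₀ : ℕ, ∀ (m : ℕ) [Fact m.Prime], m₀ ≤ m →
      ∀ (ι : Type) [Fintype ι] (c : ι → Fin k → ZMod m) (g : Fin k → (ZMod m)ˣ) (N : ℕ), LinearIndependent (ZMod m) c →
      (∀ i, (m : ℝ) ^ ε ≤ orderOf (g i)) → (∀ i j, i ≠ j → (m : ℝ) ^ ε ≤ orderOf (g i / g j)) → (m : ℝ) ^ ε ≤ N →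
      Flat m ((m : ℝ) ^ (-β)) (range N) (fun n j => ∑ i, c j i * (g i : ZMod m) ^ n)) ∧
    (∀ (ι : Type) [Fintype ι] (ε : ℝ), 0 < ε → ∃ β : ℝ, 0 < β ∧ ∀ b : ι → ℕ, (∀ j, 2 ≤ b j) → Function.Injective b →
      ∃ C : ℝ, ∀ X : ℕ, 1 ≤ X → ∀ Q : Finset ℕ,
      (∀ m ∈ Q, m ≤ X ∧ ∃ _ : Fact m.Prime, ¬ ∀ N : ℕ, (m : ℝ) ^ ε ≤ N → ∀ x : ι → ZMod m, (∀ j, x j ≠ 0) →
        Flat m ((m : ℝ) ^ (-β)) (range N) (fun n j => x j * (b j : ZMod m) ^ n)) →
      (Q.card : ℝ) ≤ C * (X : ℝ) ^ ε) := by
  refine ⟨?_, fun k ε hε => Pool.Agent.Run7.h823.WF.flat_rec' k hε,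
    fun ι _ ε hε => Pool.Agent.Run7.h823.WF.flat_pow' ι hε⟩
  intro K _ n b g h hA r B ε hε
  have h1 := Pool.Agent.Run7.h823.WF.PN.proNull_union (ι := Fin r)
    (F := {lam : Fin r → ℤ | (∀ j, |lam j| ≤ B) ∧ lam ≠ 0})
    ((Pool.Agent.Run7.h823.WF.PN.finite_vec (Fin r) B).subset fun a ha => ha.1)
    (fun lam => {c : Fin r → ℤ | ¬ Explained n b g h (∑ j, lam j * c j)})
    (fun lam hl => TwistsAlongRandomWalks.result.1 (Fin r) lam hl.2 K n b g h hA)
  obtain ⟨δ, hδ, h2⟩ := Pool.Agent.Run7.h823.WF.PN.rare _ h1 hε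
  refine ⟨δ, hδ, fun q _ hq τ s y hf c₀ => ?_⟩
  have h3 := h2 τ q hq s y (by
    rw [Fintype.card_fin]
    exact hf) c₀
  refine le_trans (Nat.cast_le.2 (Set.ncard_le_ncard ?_ ((Finset.finite_toSet s).subset fun i hi => hi.1))) h3
  rintro i ⟨hi, hno⟩
  refine ⟨hi, ?_⟩
  by_contra hcon
  apply hno
  intro lam hl hlB
  have hE : Explained n b g h (∑ j, lam j * vec y c₀ i j) := by
    by_contra hE
    exact hcon ⟨lam, ⟨hlB, hl⟩, hE⟩
  exact ⟨hE, fun hper m hm hmh => TwistsAlongRandomWalks.result.2.2.1 K n b g h hA hper _ hE m hm hmh⟩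

end Pool.Agent.Results.MP_d37f77_nt.ResidueVectors
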