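import Pool.Agent.Run7.h316.EQ.FDQ
import Pool.Agent.Run7.h316.EQ.Typ
import Pool.Agent.Run7.h316.EQ.Cnt
import Pool.Agent.N890.FD.Hyp

/-!
# Selmer sets of curves and varieties with a map to a product of CM elliptic curves and prime,
# equidistributed, metric or random coefficients

`E_i : y² = x³ + a_i x + b_i` (`i = 1, …, r`) are elliptic curves over `ℚ` with complex multiplication
(what is used is that they have supersingular reduction at the large primes `p ≡ -1` modulo some `M`;
part (0) of the theorem proves this if `a_i = 0` or `b_i = 0`, for the other CM curves over `ℚ` it is a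
theorem of Deuring), of ARBITRARY RANK, whose Tate-Shafarevich groups are killed by some `M₀ ≥ 1` (a
theorem of Kolyvagin and Rubin if the analytic ranks are at most one; the rank of `A = E_1 × … × E_r` can
then be as large as `r`). `𝒯 ⊆ A × ℙᵐ` is any closed subvariety over `ℤ`, given by multihomogeneous
equations `Φ_l (V; T) = 0`, whose fibres over the points of `A` modulo large primes `p` have at most
`B p^κ` points, `κ ≥ 1` (`FewPoints`). Consider all the intersections

  `X_c = 𝒯 ∩ {F_1 = … = F_s = 0}`, `s ≥ κ`,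

where `F_j` runs through all forms of multidegree `(d_j; e_j)` in the coordinates `V_i` of the plane
cubics `E_i` and in `T`, and `c ∈ ℤⁿ` is the vector of all their coefficients. If `𝒯` is irreducible of
dimension `r + κ` and `s = r + κ - 1`, these are random curves on `𝒯`, for `r = 1` and `s = κ` the random
complete intersection curves on a variety `𝒯` with a map to a CM elliptic curve. The `d_j` are
arbitrary; the relative degrees `e_1, …, e_κ` have to be at least `6 B` (at least `2` if `B ≤ 3/2`, that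
is if the fibres are geometrically irreducible).

If `C → A` is a morphism from a curve, then an `N`-covering of `C` (coming from its Jacobian) with points
everywhere locally dominates the pull-back of an `N`-covering of `A`, so that `Sel^(N)(C)` is empty if
the `N`-Selmer set considered here is.

**Theorem.**

Let `c w`, `w ∈ Ω`, be a family of vectors of coefficients and `S M ⊂ Ω` finite sets; `Usually`: for ALL
`𝒯` in `A × ℙᵐ` as above the proportion of the `w ∈ S M` for which it is NOT true that `X_c`, `c = c w`, has no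
rational points and for some `N` an EMPTY `N`-Selmer set tends to zero, `M → ∞`: finite descent explains
the absence of rational points for 100 % of the `X_c`. The property `Usually` is robust
(`Pool.Agent.Run7.h316.EQ.Robust`):

(1) All dominated families have it: there are `C`, `A`, `M` such that for all squarefree `q` prime to `M` at
most the proportion `C (q / φ(q)) ^ A q ^ (-n) + o(1)` of the `c w`, `w ∈ S M`, is in a given class modulo
`q`. (All equidistributed sequences, along arbitrary sets of times, are dominated, and all their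
subfamilies of positive lower density.)
(2) - (4) Metric sequences: `(⌊f_{i,l}(x_i)⌋)_i` for Koksma sequences `f_{i,0}, f_{i,1}, …`,
`(⌊a_{i,l} x_i⌋)_i` for arbitrary sequences of different integers (or of real numbers with a gap) and
`(⌊ξ_i x_i ^ (k_l)⌋)_i`, for almost all `x` (which do not depend on `𝒯`).
(5) Random orbits of groups of integral matrices of determinant one which generate `SL(ℤ/q)` for all `q`
prime to some number (all Zariski dense groups, possibly of infinite index).
(6) Generalised polynomials `(⌊∑_t a_{i,t} l ^ t⌋)_i` at the integers and at the primes `l` of `(M, 2M]`.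
(7) PRIME COEFFICIENTS: for all `𝒯` the proportion of the vectors `c` of prime numbers `≤ M` for which `X_c`
has a rational point or non-empty Selmer sets of all levels tends to zero.

The number of points modulo `p` is bounded in the examples `𝒯 = A × ℙ^κ` (with `B = 3/2`) and
`𝒯 = A × Y`, `Y ⊂ ℙ^(κ+1)` any hypersurface (with `B = 2 deg Y`), for instance for `r = κ = 1` the curves on
the surface `E × Y`, where `Y` is any plane curve.

The proof: a Selmer class of level `2 M₀ L` gives a point `y` of `A(ℚ)` which is locally everywhere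
congruent modulo `L A(ℚ_p)` to a point of `X_c(ℚ_p)`; there are at most `L ^ R` classes `y`; at the primes `p`
at which all `E_i` are supersingular with `p + 1` dividing `L`, the class of `y` modulo `L` determines the
reduction of that local point, and at most the proportion `θ < 1` of the complete intersections modulo
`p` meets the fibre of `𝒯` over it (helper890, `Pool.Agent.N890.FD`). By the theorem `prmg'` of the project DD
(helpers 781, 410, 732, 55, 992, 736, 925) the number of these `p` can be much larger than `log L`. So the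
exceptional set is strongly null (`Pool.Agent.Run7.h316.EQ.FDQ.strongSelQ`): for all `D`, `A` and `ε > 0`
there is a squarefree number `q` prime to `D` such that at most the proportion `ε (φ(q) / q) ^ A` of the
classes modulo `q` contain elements of it. Metric sequences: `Pool.Agent.N24.KM` (helpers 24, 344, 617, 199,
764, 432, 286); random orbits: `Pool.Agent.N24.RW` (helpers 24, 123, 195, 300, 543, 765); generalised
polynomials: `Pool.Agent.N666.TM` (helper666); `Pool.Agent.N918.EQ` (helper918); primes: the prime number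
theorem for arithmetic progressions (helper923). The definitions of the curves, the Selmer sets and of
`FewPoints` are those of the starting file `SelmerSetsOfRandomCurves` (helper890).
-/

set_option autoImplicit false

namespace Pool.Agent.Results.MP_d37f77_nt.RobustSelmerSets

open MvPolynomial NumberField IsDedekindDomain Pool.Agent.TH954
open Pool.Agent.Run7.h316.EQ (StrongNull Robust)

open scoped LinearAlgebra.Projectivization

/-- the curve `y² = x³ + a x + b` -/
def curve {F : Type} [Field F] (a b : F) : WeierstrassCurve F := ⟨0, 0, 0, a, b⟩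

/-- homogeneous coordinates of a point in the projective plane -/
def coords {F : Type} [Field F] {W : WeierstrassCurve F} : W.toAffine.Point → Fin 3 → F
  | .zero => ![0, 1, 0]
  | .some x y _ => ![x, y, 1]

/-- `V` is a vector of homogeneous coordinates of a point of the curve `y² = x³ + a x + b`. -/
def OnCurve {k : Type} [Field k] (a b : ℤ) (V : Fin 3 → k) : Prop :=
  V ≠ 0 ∧ V 1 ^ 2 * V 2 = V 0 ^ 3 + a * V 0 * V 2 ^ 2 + b * V 2 ^ 3

/-- The value at `V, T` of a polynomial with integral coefficients in the coordinates `V i j`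
(`i : Fin r`, `j : Fin 3`) of `r` plane cubics and in the coordinates `T x` (`x : Fin (m + 1)`) of
`ℙᵐ`. -/
noncomputable def value {k : Type} [Field k] {r m : ℕ}
    (F : MvPolynomial ((Fin r × Fin 3) ⊕ Fin (m + 1)) ℤ) (V : Fin r → Fin 3 → k)
    (T : Fin (m + 1) → k) : k :=
  eval₂ (Int.castRingHom k) (Sum.elim (fun ij => V ij.1 ij.2) T) F

/-- `F` is homogeneous of degree `d i` in the coordinates of the `i`-th plane cubic and of degree `e`
in `T`. -/
def Multihomogeneous {r m : ℕ} (F : MvPolynomial ((Fin r × Fin 3) ⊕ Fin (m + 1)) ℤ)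
    (d : Fin r → ℕ) (e : ℕ) : Prop :=
  ∀ x ∈ F.support, (∀ i, ∑ j, x (Sum.inl (i, j)) = d i) ∧ ∑ s, x (Sum.inr s) = e

/-- The index type of the coefficients of `F_1, …, F_s`: a number `j`, the exponents of a monomial of
degree `e j` in `T_0, …, T_m`, and for each `i` the exponents of a monomial of degree `d j i` in the
three coordinates `V i`. -/
abbrev Coeffs {r s : ℕ} (m : ℕ) (d : Fin s → Fin r → ℕ) (e : Fin s → ℕ) : Type :=
  Σ j : Fin s, (↥(Finset.piAntidiag (Finset.univ : Finset (Fin (m + 1))) (e j)) ×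
    ((i : Fin r) → ↥(Finset.piAntidiag (Finset.univ : Finset (Fin 3)) (d j i))))

/-- The value of the form `F_j` with the coefficients `c`. -/
noncomputable def form {k : Type} [Field k] {r s m : ℕ} {d : Fin s → Fin r → ℕ}
    {e : Fin s → ℕ} (c : Coeffs m d e → k) (j : Fin s) (V : Fin r → Fin 3 → k)
    (T : Fin (m + 1) → k) : k :=
  ∑ x : ↥(Finset.piAntidiag (Finset.univ : Finset (Fin (m + 1))) (e j)) ×
      ((i : Fin r) → ↥(Finset.piAntidiag (Finset.univ : Finset (Fin 3)) (d j i))),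
    c ⟨j, x⟩ * ((∏ i, ∏ y, V i y ^ (x.2 i).1 y) * ∏ y, T y ^ x.1.1 y)

/-- The variety `X_c`, `Φ_l = 0`, `F_j = 0`, has a point over the extension `L` of `ℚ` whose components
in the elliptic curves are the points `P i`. -/
def IsOver {r s m q : ℕ} (a b : Fin r → ℤ)
    (Φ : Fin q → MvPolynomial ((Fin r × Fin 3) ⊕ Fin (m + 1)) ℤ)
    {d : Fin s → Fin r → ℕ} {e : Fin s → ℕ} (c : Coeffs m d e → ℤ) (L : Type) [Field L]
    [Algebra ℚ L] (P : ∀ i, ((curve (a i : ℚ) (b i : ℚ)).baseChange L).toAffine.Point) : Prop :=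
  ∃ T : Fin (m + 1) → L, T ≠ 0 ∧ (∀ l, value (Φ l) (fun i => coords (P i)) T = 0) ∧
    ∀ j, form (fun x => (c x : L)) j (fun i => coords (P i)) T = 0

open scoped Classical in
/-- The `N`-Selmer set of `X_c` (at the finite places), described by cocycles: the `N`-coverings of
`A = E_1 × … × E_r` whose pull-backs to `X_c` have points over all the completions of `ℚ` at finite
places: there are a point of `X_c` over `ℚ_v`, with components `P i`, and points `Q i` with
`N • Q i = P i` on which the Galois group of `ℚ_v` acts by translation by the cocycles `ξ i`. -/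
def Sel {r s m q : ℕ} (a b : Fin r → ℤ)
    (Φ : Fin q → MvPolynomial ((Fin r × Fin 3) ⊕ Fin (m + 1)) ℤ)
    {d : Fin s → Fin r → ℕ} {e : Fin s → ℕ} (c : Coeffs m d e → ℤ) (N : ℕ) :
    Set (∀ i : Fin r, (AlgebraicClosure ℚ ≃ₐ[ℚ] AlgebraicClosure ℚ) →
      AlgPt (curve (a i : ℚ) (b i : ℚ)) ℚ) :=
  {ξ | (∀ i, IsCocycle (curve (a i : ℚ) (b i : ℚ)) (ξ i)) ∧ (∀ i σ, N • ξ i σ = 0) ∧
    ∀ v : HeightOneSpectrum (𝓞 ℚ),
      ∃ (ι : AlgebraicClosure ℚ →ₐ[ℚ] AlgebraicClosure (v.adicCompletion ℚ))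
        (P : ∀ i, ((curve (a i : ℚ) (b i : ℚ)).baseChange (v.adicCompletion ℚ)).toAffine.Point)
        (Q : ∀ i, AlgPt (curve (a i : ℚ) (b i : ℚ)) (v.adicCompletion ℚ)),
        IsOver a b Φ c (v.adicCompletion ℚ) P ∧
        (∀ i, N • Q i = incl (curve (a i : ℚ) (b i : ℚ)) (v.adicCompletion ℚ) (P i)) ∧
        ∀ i σ τ, Compat ι σ τ → pm (curve (a i : ℚ) (b i : ℚ)) ι (ξ i τ) =
          act (curve (a i : ℚ) (b i : ℚ)) σ (Q i) - Q i}

/-- `X_c` has a rational point. -/
def HasPoint {r s m q : ℕ} (a b : Fin r → ℤ)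
    (Φ : Fin q → MvPolynomial ((Fin r × Fin 3) ⊕ Fin (m + 1)) ℤ)
    {d : Fin s → Fin r → ℕ} {e : Fin s → ℕ} (c : Coeffs m d e → ℤ) : Prop :=
  ∃ (P : ∀ i, (curve (a i : ℚ) (b i : ℚ)).toAffine.Point) (T : Fin (m + 1) → ℚ), T ≠ 0 ∧
    (∀ l, value (Φ l) (fun i => coords (P i)) T = 0) ∧
      ∀ j, form (fun x => (c x : ℚ)) j (fun i => coords (P i)) T = 0

/-- For all large primes `p` (with `p ≡ -1` modulo some `M`) the fibres of `𝒯 = {Φ_l = 0}` over the
points of `A` modulo `p` have at most `B p ^ κ` points. -/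
def FewPoints {r m q : ℕ} (a b : Fin r → ℤ)
    (Φ : Fin q → MvPolynomial ((Fin r × Fin 3) ⊕ Fin (m + 1)) ℤ) (κ : ℕ) (B : ℝ) : Prop :=
  ∃ M p₁ : ℕ, 0 < M ∧ ∀ (p : ℕ) [Fact p.Prime], p₁ ≤ p → M ∣ p + 1 →
    ∀ V : Fin r → Fin 3 → ZMod p, (∀ i, OnCurve (a i) (b i) (V i)) →
      (({P : ℙ (ZMod p) (Fin (m + 1) → ZMod p) | ∀ l, value (Φ l) V P.rep = 0}.ncard : ℕ) : ℝ) ≤
        B * (p : ℝ) ^ κ

/-- `y² = x³ + a x + b` is an elliptic curve over `ℚ` which has `p` affine points modulo `p` (is
supersingular) for the primes `p ≡ -1` modulo some `M` which do not divide some `D`. This holds for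
the elliptic curves over `ℚ` with complex multiplication, and only for them. -/
def Supersingular (a b : ℤ) : Prop :=
  4 * a ^ 3 + 27 * b ^ 2 ≠ 0 ∧ ∃ M D : ℕ, 0 < M ∧ 0 < D ∧ ∀ p : ℕ, p.Prime → ¬ p ∣ D → M ∣ p + 1 →
    Nat.card {z : ZMod p × ZMod p // z.2 ^ 2 = z.1 ^ 3 + a * z.1 + b} = p

theorem supersingular_of (a b : ℤ) (h : a * b = 0) (h0 : a ≠ 0 ∨ b ≠ 0) : Supersingular a b := by
  refine ⟨?_, 12, 1, by norm_num, one_pos, fun p hp _ h12 =>
    Pool.Agent.H35R6.DCCNT.cnt p a b hp h12 h⟩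
  exact Pool.Agent.N89.CI.disc_ne (r := 1) (a := fun _ => a) (b := fun _ => b)
    (fun _ => ⟨h, h0⟩) 0

/-- For ALL closed subvarieties `𝒯 = {Φ_l = 0}` of `A × ℙᵐ` with at most `B p ^ κ` points in the fibres
over the points of `A` modulo `p` and relative degrees `e_1, …, e_κ` at least `6 B` (at least `2`, if
`B ≤ 3/2`) the proportion of the `w` in `S M` for which it is not true that `X_c`, `c = c w`, has no
rational point and for some `N` an empty `N`-Selmer set, tends to zero, `M → ∞`. -/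
def Usually {r s : ℕ} (a b : Fin r → ℤ) (κ m : ℕ) (d : Fin s → Fin r → ℕ) (e : Fin s → ℕ)
    (Ω : Type) (S : ℕ → Finset Ω) (c : Ω → Coeffs m d e → ℤ) : Prop :=
  ∀ (q : ℕ) (Φ : Fin q → MvPolynomial ((Fin r × Fin 3) ⊕ Fin (m + 1)) ℤ)
    (d' : Fin q → Fin r → ℕ) (e' : Fin q → ℕ), (∀ l, Multihomogeneous (Φ l) (d' l) (e' l)) →
    ∀ B : ℝ, FewPoints a b Φ κ B →
    (B ≤ 3 / 2 ∧ (∀ j : Fin s, j.1 < κ → 2 ≤ e j) ∨ ∀ j : Fin s, j.1 < κ → 6 * B ≤ e j) →
    ∀ ε : ℝ, 0 < ε → ∃ M₀ : ℕ, ∀ M : ℕ, M₀ ≤ M →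
      (({w : Ω | w ∈ S M ∧ ¬ (¬ HasPoint a b Φ (c w) ∧
        ∃ N : ℕ, 1 ≤ N ∧ Sel a b Φ (c w) N = ∅)}.ncard : ℕ) : ℝ) ≤ ε * (S M).card

theorem strong (r : ℕ) (a b : Fin r → ℤ) (hE : ∀ i, Supersingular (a i) (b i))
    (M₀ : ℕ) (hM₀ : 1 ≤ M₀) (hSha : ∀ i, ShaKilledBy (curve (a i : ℚ) (b i : ℚ)) M₀)
    (κ s : ℕ) (hκ : 1 ≤ κ) (hs : κ ≤ s) (d : Fin s → Fin r → ℕ) (e : Fin s → ℕ)
    (m q : ℕ) (Φ : Fin q → MvPolynomial ((Fin r × Fin 3) ⊕ Fin (m + 1)) ℤ)
    (d' : Fin q → Fin r → ℕ) (e' : Fin q → ℕ) (hΦ : ∀ l, Multihomogeneous (Φ l) (d' l) (e' l))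
    (B : ℝ) (hpts : FewPoints a b Φ κ B)
    (he : B ≤ 3 / 2 ∧ (∀ j : Fin s, j.1 < κ → 2 ≤ e j) ∨
      ∀ j : Fin s, j.1 < κ → 6 * B ≤ e j) :
    StrongNull {c : Coeffs m d e → ℤ | ¬ (¬ HasPoint a b Φ c ∧
      ∃ N : ℕ, 1 ≤ N ∧ Sel a b Φ c N = ∅)} := by
  obtain ⟨M, p₁, hM, hpts⟩ := hpts
  choose hdisc M₁ D₁ hM₁ hD₁ hss using hE
  have hH := Pool.Agent.Run7.h316.EQ.FDQ.strongSelQ r m κ s hκ hs a b hdisc (∏ i, M₁ i)
    (∏ i, D₁ i) (Finset.prod_pos fun i _ => hM₁ i) (Finset.prod_pos fun i _ => hD₁ i)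
    (fun i p hp hpD hpM => hss i p hp
      (fun h => hpD (h.trans (Finset.dvd_prod_of_mem _ (Finset.mem_univ i))))
      ((Finset.dvd_prod_of_mem _ (Finset.mem_univ i)).trans hpM)) M₀ hM₀ hSha Φ d' e'
    hΦ B M p₁ hM hpts d e he
  refine StrongNull.mono ?_ hH
  intro c h
  have h1 : HasPoint a b Φ c ∨ ∀ N : ℕ, 1 ≤ N → (Sel a b Φ c N).Nonempty := by
    by_contra hcon
    rw [not_or] at hcon
    obtain ⟨hcon1, hcon2⟩ := hcon
    push Not at hcon2
    exact h ⟨hcon1, hcon2⟩
  rcases h1 with ⟨P, T, hT, h1, h2⟩ | h1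
  · left
    refine ⟨P, T, hT, fun l => ?_⟩
    rcases l with l | j
    · simp only [Sum.elim_inl]
      rw [Pool.Agent.N89.CI.valP_lift0]
      exact h1 l
    · simp only [Sum.elim_inr]
      rw [Pool.Agent.N89.CI.valP_gen]
      exact h2 j
  · right
    intro N hN
    obtain ⟨ξ, h1, h2, h3⟩ := h1 N hN
    refine ⟨ξ, h1, h2, fun v => ?_⟩
    obtain ⟨ι, P, Q, ⟨T, hT, h4, h5⟩, h6, h7⟩ := h3 v
    refine ⟨ι, P, Q, ⟨T, hT, fun l => ?_⟩, h6, h7⟩
    have hc1 : (algebraMap ℚ (v.adicCompletion ℚ)).comp (Int.castRingHom ℚ) =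
        Int.castRingHom (v.adicCompletion ℚ) := RingHom.ext_int _ _
    have hc2 : (fun x => algebraMap ℚ (v.adicCompletion ℚ) ((c x : ℤ) : ℚ)) =
        fun x => ((c x : ℤ) : v.adicCompletion ℚ) := by
      funext x
      exact map_intCast _ _
    rw [hc1, hc2]
    rcases l with l | j
    · simp only [Sum.elim_inl]
      rw [Pool.Agent.N89.CI.valP_lift0]
      exact h4 l
    · simp only [Sum.elim_inr]
      rw [Pool.Agent.N89.CI.valP_gen]
      exact h5 j

theorem countable_poly (σ : Type) [Finite σ] : Countable (MvPolynomial σ ℤ) := by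
  rw [← Cardinal.mk_le_aleph0_iff]
  refine MvPolynomial.cardinalMk_le_max.trans ?_
  simp

/-- **Finite descent explains the absence of rational points on 100 % of the complete intersections
in robust families.** -/
theorem result (r : ℕ) (a b : Fin r → ℤ) (hE : ∀ i, Supersingular (a i) (b i))
    (M₀ : ℕ) (hM₀ : 1 ≤ M₀) (hSha : ∀ i, ShaKilledBy (curve (a i : ℚ) (b i : ℚ)) M₀)
    (κ s : ℕ) (hκ : 1 ≤ κ) (hs : κ ≤ s) (d : Fin s → Fin r → ℕ) (e : Fin s → ℕ) :
    -- the families
    (∀ m : ℕ, Robust (Usually a b κ m d e)) ∧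
    -- (0) the curves `y² = x³ + a x` and `y² = x³ + b`
    (∀ a b : ℤ, a * b = 0 → (a ≠ 0 ∨ b ≠ 0) → Supersingular a b) ∧
    -- `𝒯 = A × ℙ^κ`
    FewPoints (m := κ) a b (fun l : Fin 0 => l.elim0) κ (3 / 2) ∧
    -- `𝒯 = A × Y` for a hypersurface `Y : f = 0` of degree `g` in `ℙ^(κ+1)`
    (∀ (g : ℕ) (f : MvPolynomial (Fin (κ + 2)) ℤ), f.IsHomogeneous g → f ≠ 0 →
      Multihomogeneous (r := r) (rename Sum.inr f) (fun _ => 0) g ∧
      FewPoints (m := κ + 1) a b (fun _ : Fin 1 => rename Sum.inr f) κ (2 * g)) := by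
  classical
  refine ⟨?_, supersingular_of, ?_, ?_⟩
  · intro m
    have hne : Nonempty (Coeffs m d e) := Pool.Agent.N89.CI.nonempty_idx m d e (hκ.trans hs)
    have hcP : Countable (MvPolynomial ((Fin r × Fin 3) ⊕ Fin (m + 1)) ℤ) := countable_poly _
    have key := Pool.Agent.Run7.h316.EQ.robust_countable (ι := Coeffs m d e)
      (I := {i : Σ q : ℕ, Fin q → MvPolynomial ((Fin r × Fin 3) ⊕ Fin (m + 1)) ℤ //
        ∃ (d' : Fin i.1 → Fin r → ℕ) (e' : Fin i.1 → ℕ),
          (∀ l, Multihomogeneous (i.2 l) (d' l) (e' l)) ∧ ∃ B : ℝ, FewPoints a b i.2 κ B ∧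
          (B ≤ 3 / 2 ∧ (∀ j : Fin s, j.1 < κ → 2 ≤ e j) ∨
            ∀ j : Fin s, j.1 < κ → 6 * B ≤ e j)})
      (fun i => {c : Coeffs m d e → ℤ | ¬ (¬ HasPoint a b i.1.2 c ∧
        ∃ N : ℕ, 1 ≤ N ∧ Sel a b i.1.2 c N = ∅)}) (by
        rintro ⟨⟨q, Φ⟩, d', e', hΦ, B, hB, he⟩
        exact strong r a b hE M₀ hM₀ hSha κ s hκ hs d e m q Φ d' e' hΦ B hB he)
      (Usually a b κ m d e) (by
        intro Ω T c hR q Φ d' e' hΦ B hB he ε hε
        exact hR ⟨⟨q, Φ⟩, d', e', hΦ, B, hB, he⟩ ε hε)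
    exact key
  · refine ⟨1, 3, one_pos, ?_⟩
    intro p hp hp3 _ V hV
    have h1 : {P : ℙ (ZMod p) (Fin (κ + 1) → ZMod p) |
        ∀ l : Fin 0, value (r := r) (l.elim0 : MvPolynomial ((Fin r × Fin 3) ⊕ Fin (κ + 1)) ℤ) V
          P.rep = 0} = Set.univ :=
      Set.eq_univ_of_forall fun P l => l.elim0
    rw [h1, Set.ncard_univ]
    have h2 := Pool.Agent.N89.CI.density_fun (k := ZMod p) (m := κ) (κ := κ)
      (by rw [Nat.card_zmod]; exact hp3) rfl
    rwa [Nat.card_zmod] at h2
  · intro g f hf hf0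
    refine ⟨?_, ?_⟩
    · intro x hx
      obtain ⟨y, hy1, hy2⟩ := coeff_rename_ne_zero _ _ _ (mem_support_iff.1 hx)
      subst hy1
      refine ⟨fun i => Finset.sum_eq_zero fun j _ => ?_, ?_⟩
      · rw [Finsupp.mapDomain_of_notMem_range]
        simp
      · have h1 := hf hy2
        rw [Finsupp.weight_apply, Finsupp.sum_fintype _ _ (fun _ => by simp)] at h1
        rw [← h1]
        refine Finset.sum_congr rfl fun i _ => ?_
        rw [Finsupp.mapDomain_apply Sum.inr_injective]
        simp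
    · obtain ⟨p₁, hp₁⟩ := Pool.Agent.N890.FD.hyp_count κ g f hf hf0
      refine ⟨1, p₁, one_pos, ?_⟩
      intro p hp hp1 _ V hV
      refine le_trans (le_of_eq ?_) (hp₁ p hp1)
      congr 2
      ext P
      simp only [Set.mem_ofPred_eq]
      unfold value
      rw [eval₂_rename]
      simp only [Sum.elim_comp_inr]
      exact ⟨fun h => h 0, fun h _ => h⟩

end Pool.Agent.Results.MP_d37f77_nt.RobustSelmerSets
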